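import Mathlib

/-!
The Eichler-Shimura conjecture for Hilbert newforms that are, potentially and up to twist, base
changes.
-/

set_option autoImplicit false

namespace Pool.Agent.Results.MP_e1ffa3_nt.TwistedBaseChange

/-- `Field`: the number fields inside an algebraic closure of `ℚ`, ordered by inclusion.
`Sys L`: two-dimensional compatible systems of representations of `Gal(ℚ̄/L)`; `res` restriction;
`Char L` the characters of finite order of `Gal(ℚ̄/L)`, `twist` the twist by them.
`Newform L`: for `L` totally real, the Hilbert newforms of parallel weight `2` over `L` (any level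
and character), with their systems `sys`. `InAV V`: the system `V` occurs in the system of Tate
modules of an abelian variety over `L`.
`trivialCharacter f`; `Associated f`: `f` has an associated abelian variety in the sense of the
problem (conditions (i)-(iv)). -/
structure Theory where
  Field : Type
  [order : PartialOrder Field]
  Sys : Field → Type
  res : ∀ {L L' : Field}, L ≤ L' → Sys L → Sys L'
  Char : Field → Type
  twist : ∀ {L : Field}, Char L → Sys L → Sys L
  Newform : Field → Type
  sys : ∀ {L : Field}, Newform L → Sys L
  InAV : ∀ {L : Field}, Sys L → Prop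
  trivialCharacter : ∀ {L : Field}, Newform L → Prop
  Associated : ∀ {L : Field}, Newform L → Prop
  /-- `L` has odd degree over `ℚ` -/
  OddDegree : Field → Prop
  /-- the newform is square-integrable (special or supercuspidal) at some finite place -/
  Discrete : ∀ {L : Field}, Newform L → Prop
  HasCM : ∀ {L : Field}, Newform L → Prop
  /-- `L'/L` is a solvable Galois extension of totally real fields -/
  Solvable : Field → Field → Prop
  /-- every `Gal(L'/L)`-conjugate of the newform over `L'` is a twist of it -/
  InvariantUpToTwist : ∀ {L' : Field}, Field → Newform L' → Prop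

attribute [instance] Theory.order

variable (T : Theory)

/-- Restriction is transitive, and a character of finite order is trivial on the absolute Galois
group of a finite extension. -/
def Theory.Functorial : Prop :=
  (∀ (L L' L'' : T.Field) (h : L ≤ L') (h' : L' ≤ L'') (V : T.Sys L),
    T.res h' (T.res h V) = T.res (h.trans h') V) ∧
  ∀ (L : T.Field) (c : T.Char L), ∃ L', ∃ h : L ≤ L', ∀ V, T.res h (T.twist c V) = T.res h V

/-- Base change and Weil restriction of abelian varieties (Frobenius reciprocity). -/
def Theory.WeilRestriction : Prop :=
  ∀ (L L' : T.Field) (h : L ≤ L') (V : T.Sys L), T.InAV V ↔ T.InAV (T.res h V)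

/-- Faltings: if the system of a newform with trivial character over a totally real field occurs in
an abelian variety, the newform has an associated abelian variety. -/
def Theory.Faltings : Prop :=
  ∀ (L : T.Field) (f : T.Newform L), T.trivialCharacter f → T.InAV (T.sys f) → T.Associated f

/-- Shimura, Hida, Carayol, Zhang: the system of a newform occurs in an abelian variety if the
field has odd degree, or the form is square-integrable at a finite place, or has complex
multiplication. -/
def Theory.KnownCases : Prop :=
  ∀ (L : T.Field) (f : T.Newform L), T.OddDegree L ∨ T.Discrete f ∨ T.HasCM f → T.InAV (T.sys f)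

/-- Tate's lifting theorem and solvable descent: a newform `f` over `L'` without complex
multiplication which is invariant under `Gal(L'/L)` up to twist is a twist of the base change of a
newform over `L`, if `L'/L` is solvable. -/
def Theory.Descent : Prop :=
  ∀ (L L' : T.Field) (h : L ≤ L') (f : T.Newform L'), T.Solvable L L' → ¬ T.HasCM f →
    T.InvariantUpToTwist L f → ∃ (g : T.Newform L) (c : T.Char L'),
      T.res h (T.sys g) = T.twist c (T.sys f)

/-- **Eichler-Shimura for twisted base changes.**  Let `f` be a Hilbert newform of parallel weight
`2` with trivial character over the totally real field `F`.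

(1) If over some number field `L` containing `F` and a totally real field `F₀` the system of `f` is
a twist of that of a newform `g` over `F₀`, where `[F₀ : ℚ]` is odd or `g` is square-integrable at
a finite place or has complex multiplication, then `f` has an associated abelian variety.

(2) If `f` is invariant up to twist under `Gal(F/F₀)`, where `F/F₀` is a solvable Galois extension
of totally real fields and `[F₀ : ℚ]` is odd (for instance `F₀ = ℚ`), then `f` has an associated
abelian variety, whatever the degree of `F`. -/
theorem result (h1 : T.Functorial) (h2 : T.WeilRestriction) (h3 : T.Faltings)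
    (h4 : T.KnownCases) (h5 : T.Descent) :
    (∀ (F F₀ L : T.Field) (hF : F ≤ L) (hF₀ : F₀ ≤ L) (f : T.Newform F) (g : T.Newform F₀)
      (c : T.Char L), T.trivialCharacter f →
      T.res hF (T.sys f) = T.twist c (T.res hF₀ (T.sys g)) →
      (T.OddDegree F₀ ∨ T.Discrete g ∨ T.HasCM g) → T.Associated f) ∧
    (∀ (F₀ F : T.Field) (f : T.Newform F), F₀ ≤ F → T.trivialCharacter f → T.OddDegree F₀ →
      T.Solvable F₀ F → T.InvariantUpToTwist F₀ f → T.Associated f) := by
  have key : ∀ (F F₀ L : T.Field) (hF : F ≤ L) (hF₀ : F₀ ≤ L) (f : T.Newform F)
      (g : T.Newform F₀), T.trivialCharacter f →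
      T.res hF (T.sys f) = T.res hF₀ (T.sys g) →
      (T.OddDegree F₀ ∨ T.Discrete g ∨ T.HasCM g) → T.Associated f := by
    intro F F₀ L hF hF₀ f g hf he hg
    refine h3 F f hf ((h2 F L hF (T.sys f)).2 ?_)
    rw [he]
    exact (h2 F₀ L hF₀ (T.sys g)).1 (h4 F₀ g hg)
  refine ⟨fun F F₀ L hF hF₀ f g c hf he hg => ?_, fun F₀ F f hF hf ho hs hi => ?_⟩
  · obtain ⟨L', h, hL'⟩ := h1.2 L c
    refine key F F₀ L' (hF.trans h) (hF₀.trans h) f g hf ?_ hg
    rw [← h1.1 _ _ _ hF h, he, hL', h1.1]
  · by_cases hCM : T.HasCM f
    · exact h3 F f hf (h4 F f (Or.inr (Or.inr hCM)))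
    · obtain ⟨g, c, hg⟩ := h5 F₀ F hF f hs hCM hi
      obtain ⟨L', h, hL'⟩ := h1.2 F c
      refine key F F₀ L' h (hF.trans h) f g hf ?_ (Or.inl ho)
      rw [← h1.1 _ _ _ hF h, hg, hL']

end Pool.Agent.Results.MP_e1ffa3_nt.TwistedBaseChange
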